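import Pool.Agent.H14.AVR.Stmts

/-!
# Project AVR: the denominators of a point
-/

set_option autoImplicit false

namespace Pool.AVR

open Polynomial Matrix

theorem den_thm : DENStmt := by
  intro F _ a b c x y h
  obtain ⟨p, hp⟩ : ∃ p, p = x.num := ⟨_, rfl⟩
  obtain ⟨q, hq⟩ : ∃ q, q = x.denom := ⟨_, rfl⟩
  have hco : IsCoprime p q := by rw [hp, hq]; exact RatFunc.isCoprime_num_denom x
  have hq0 : q ≠ 0 := by rw [hq]; exact RatFunc.denom_ne_zero x
  have hx : x = algebraMap F[X] (RatFunc F) p / algebraMap F[X] (RatFunc F) q := by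
    rw [hp, hq]; exact (RatFunc.num_div_denom x).symm
  have inj : Function.Injective (algebraMap F[X] (RatFunc F)) :=
    IsFractionRing.injective F[X] (RatFunc F)
  have hqK : algebraMap F[X] (RatFunc F) q ≠ 0 := by
    intro h0; exact hq0 (inj (by rw [h0, map_zero]))
  obtain ⟨N, hN⟩ : ∃ N, N = p ^ 3 + a * p ^ 2 * q + b * p * q ^ 2 + c * q ^ 3 := ⟨_, rfl⟩
  have key : (algebraMap F[X] (RatFunc F) q ^ 2 * y) ^ 2 = algebraMap F[X] (RatFunc F) (q * N) := by
    have h1 : y ^ 2 = x ^ 3 + algebraMap F[X] (RatFunc F) a * x ^ 2 +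
        algebraMap F[X] (RatFunc F) b * x + algebraMap F[X] (RatFunc F) c := h
    rw [mul_pow, h1, hx, hN]
    simp only [map_mul, map_add, map_pow]
    field_simp
  obtain ⟨s, hs⟩ : ∃ s : F[X], algebraMap F[X] (RatFunc F) s =
      algebraMap F[X] (RatFunc F) q ^ 2 * y :=
    IsIntegrallyClosed.exists_algebraMap_eq_of_isIntegral_pow (n := 2) (by norm_num)
      (by rw [key]; exact isIntegral_algebraMap)
  have hs2 : q * N = s ^ 2 := by
    apply inj
    rw [map_pow, hs, key]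
  have hqN : IsCoprime q N := by
    have h3 : IsCoprime q (p ^ 3) := (hco.symm).pow_right
    have h4 : N = p ^ 3 + q * (a * p ^ 2 + b * p * q + c * q ^ 2) := by rw [hN]; ring
    rw [h4]
    exact IsCoprime.add_mul_left_right h3 _
  obtain ⟨w, ε, hw⟩ := exists_associated_pow_of_mul_eq_pow' hqN hs2
  -- hw : w ^ 2 * ε = q
  have hw0 : w ≠ 0 := by
    rintro rfl
    apply hq0
    rw [← hw]; simp
  have hdvd : w ∣ s := by
    have : w ^ 2 ∣ s ^ 2 := by
      rw [← hs2, ← hw]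
      exact ⟨ε * N, by ring⟩
    exact (IsIntegrallyClosed.pow_dvd_pow_iff two_ne_zero).1 this
  obtain ⟨v', hv'⟩ := hdvd
  have hεv : v' ^ 2 = ε * N := by
    have h5 : w ^ 2 * (v' ^ 2) = w ^ 2 * (ε * N) := by
      rw [← mul_pow, ← hv', ← hs2, ← hw]; ring
    exact mul_left_cancel₀ (pow_ne_zero 2 hw0) h5
  have hεinv : ((ε⁻¹ : F[X]ˣ) : F[X]) * (ε : F[X]) = 1 := by simp
  have hεK : algebraMap F[X] (RatFunc F) ((ε⁻¹ : F[X]ˣ) : F[X]) *
      algebraMap F[X] (RatFunc F) (ε : F[X]) = 1 := by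
    rw [← map_mul, hεinv, map_one]
  have hεK0 : algebraMap F[X] (RatFunc F) (ε : F[X]) ≠ 0 := by
    intro h0; rw [h0, mul_zero] at hεK; exact zero_ne_one hεK
  have hinv : algebraMap F[X] (RatFunc F) ((ε⁻¹ : F[X]ˣ) : F[X]) =
      (algebraMap F[X] (RatFunc F) (ε : F[X]))⁻¹ := eq_inv_of_mul_eq_one_left hεK
  have hwK : algebraMap F[X] (RatFunc F) w ≠ 0 := by
    intro h0; exact hw0 (inj (by rw [h0, map_zero]))
  refine ⟨((ε⁻¹ : F[X]ˣ) : F[X]) * p, ((ε⁻¹ : F[X]ˣ) : F[X]) ^ 2 * v', w, hw0, ?_, ?_, ?_⟩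
  · have h6 : IsCoprime w N := by
      have : IsCoprime (w * (w * ε)) N := by
        have e : w * (w * (ε : F[X])) = q := by rw [← hw]; ring
        rw [e]; exact hqN
      exact this.of_mul_left_left
    have h7 : IsCoprime w ((ε : F[X]) * N) := by
      refine IsCoprime.mul_right ?_ h6
      exact isCoprime_one_right.of_isCoprime_of_dvd_right
        ⟨((ε⁻¹ : F[X]ˣ) : F[X]), by rw [mul_comm]; exact hεinv.symm⟩
    have h8 : IsCoprime w v' := by
      rw [← hεv, pow_two] at h7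
      exact h7.of_mul_right_left
    refine IsCoprime.mul_right ?_ h8
    exact isCoprime_one_right.of_isCoprime_of_dvd_right
      ⟨(ε : F[X]) ^ 2, by rw [← mul_pow, hεinv, one_pow]⟩
  · rw [hx, ← hw, map_mul, map_mul, map_pow, hinv]
    field_simp
  · have hy : y = algebraMap F[X] (RatFunc F) s / algebraMap F[X] (RatFunc F) q ^ 2 := by
      rw [hs]; field_simp
    rw [hy, hv', ← hw]
    simp only [map_mul, map_pow, hinv]
    field_simp

end Pool.AVR
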