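import Pool.Agent.H14.AVR.Stmts2

/-!
# Project AVR: many monic irreducible cubics over a finite field
-/

set_option autoImplicit false

namespace Pool.AVR

open Polynomial Matrix

theorem icb_cub {k : Type} [Field k] (f : k[X]) (hm : f.Monic) (hd : f.natDegree = 3) :
    f = cub (f.coeff 2) (f.coeff 1) (f.coeff 0) := by
  have h := hm.as_sum
  rw [hd, Finset.sum_range_succ, Finset.sum_range_succ, Finset.sum_range_one] at h
  unfold cub
  conv_lhs => rw [h]
  rw [pow_zero, pow_one, mul_one]
  ring

theorem icb_thm : ICBStmt := by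
  intro k _ _
  classical
  obtain ⟨p, hp⟩ := CharP.exists k
  have : Fact (Nat.Prime p) := ⟨CharP.char_is_prime k p⟩
  have := Fintype.ofFinite k
  have := Fintype.ofFinite (FiniteField.Extension k p 3)
  have hfr : Module.finrank k (FiniteField.Extension k p 3) = 3 :=
    FiniteField.finrank_extension k p 3
  have hcard : Fintype.card (FiniteField.Extension k p 3) = Fintype.card k ^ 3 := by
    rw [← Nat.card_eq_fintype_card, ← Nat.card_eq_fintype_card]
    exact FiniteField.natCard_extension k p 3
  obtain ⟨R, hR⟩ : ∃ R : Finset (FiniteField.Extension k p 3),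
      R = Finset.univ.image (algebraMap k (FiniteField.Extension k p 3)) := ⟨_, rfl⟩
  obtain ⟨φ, hφ⟩ : ∃ φ : FiniteField.Extension k p 3 → k × k × k,
      φ = fun θ => ((minpoly k θ).coeff 2, (minpoly k θ).coeff 1, (minpoly k θ).coeff 0) :=
    ⟨_, rfl⟩
  have hint : ∀ θ : FiniteField.Extension k p 3, IsIntegral k θ := fun θ =>
    IsIntegral.of_finite k θ
  have hmin : ∀ θ : FiniteField.Extension k p 3, θ ∈ Rᶜ →
      minpoly k θ = cub (φ θ).1 (φ θ).2.1 (φ θ).2.2 := by
    intro θ hθ
    have hdeg : (minpoly k θ).natDegree = 3 := by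
      have h1 : (minpoly k θ).natDegree ∣ 3 := by
        have := minpoly.degree_dvd (hint θ)
        rwa [hfr] at this
      rcases (Nat.dvd_prime Nat.prime_three).1 h1 with h2 | h2
      · exfalso
        rw [minpoly.natDegree_eq_one_iff] at h2
        obtain ⟨z, hz⟩ := h2
        rw [Finset.mem_compl, hR] at hθ
        exact hθ (Finset.mem_image.2 ⟨z, Finset.mem_univ _, hz⟩)
      · exact h2
    rw [hφ]
    exact icb_cub _ (minpoly.monic (hint θ)) hdeg
  have hRcard : R.card = Fintype.card k := by
    rw [hR, Finset.card_image_of_injective _ (algebraMap k (FiniteField.Extension k p 3)).injective,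
      Finset.card_univ]
  have h1 : Rᶜ.card ≤ 3 * (Rᶜ.image φ).card := by
    refine Finset.card_le_mul_card_image _ 3 fun t ht => ?_
    obtain ⟨θ₀, hθ₀, hθt⟩ := Finset.mem_image.1 ht
    have hf0 : minpoly k θ₀ ≠ 0 := minpoly.ne_zero (hint θ₀)
    have hsub : (Rᶜ.filter fun θ => φ θ = t) ⊆
        ((minpoly k θ₀).aroots (FiniteField.Extension k p 3)).toFinset := by
      intro θ hθ
      rw [Finset.mem_filter] at hθ
      rw [Multiset.mem_toFinset, mem_aroots]
      refine ⟨hf0, ?_⟩
      have : minpoly k θ₀ = minpoly k θ := by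
        rw [hmin θ₀ hθ₀, hmin θ hθ.1, hθ.2, hθt]
      rw [this, minpoly.aeval]
    refine (Finset.card_le_card hsub).trans ((Multiset.toFinset_card_le _).trans ?_)
    refine (Polynomial.card_roots' _).trans ?_
    rw [natDegree_map]
    have := minpoly.natDegree_le (A := k) θ₀
    rwa [hfr] at this
  have h2 : ((Rᶜ.image φ : Finset (k × k × k)) : Set (k × k × k)) ⊆
      {t : k × k × k | Irreducible (cub t.1 t.2.1 t.2.2)} := by
    intro t ht
    obtain ⟨θ, hθ, rfl⟩ := Finset.mem_image.1 (Finset.mem_coe.1 ht)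
    show Irreducible (cub (φ θ).1 (φ θ).2.1 (φ θ).2.2)
    rw [← hmin θ hθ]
    exact minpoly.irreducible (hint θ)
  have h3 : (Rᶜ.image φ).card ≤ {t : k × k × k | Irreducible (cub t.1 t.2.1 t.2.2)}.ncard := by
    rw [← Set.ncard_coe_finset]
    exact Set.ncard_le_ncard h2 (Set.toFinite _)
  have h4 : Rᶜ.card = Fintype.card k ^ 3 - Fintype.card k := by
    rw [Finset.card_compl, hRcard, hcard]
  rw [Nat.card_eq_fintype_card]
  omega

end Pool.AVR
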